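import Pool.Agent.H.MP_1dbcb3_an.A

set_option autoImplicit false
open Set MeasureTheory Filter Topology Pool.Agent.H.MP_1dbcb3_an
open scoped ENNReal

namespace Pool.Agent.Results.MP_1dbcb3_an.No

theorem result : ∃ ω : ℝ → ℝ, Continuous ω ∧ ω 0 = 0 ∧ (∀ μ, 0 < μ → 0 < ω μ) ∧
    ∫⁻ μ in Ioi (1 : ℝ), ENNReal.ofReal (ω μ / μ ^ 2) = ∞ ∧
    ∃ u : ℝ → ℝ, Measurable u ∧ (¬ ∃ c, ∀ᵐ x ∂volume.restrict (Ioo (0 : ℝ) 1), u x = c) ∧
      (∀ α : ℝ, 0 < α → α < 1 → ∫⁻ x in Ioo (0 : ℝ) 1, ENNReal.ofReal (|u x| ^ α) < ∞) ∧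
      ∫⁻ p in Ioo (0 : ℝ) 1 ×ˢ Ioo (0 : ℝ) 1,
        ENNReal.ofReal (ω (|u p.2 - u p.1| / |p.2 - p.1|) / |p.2 - p.1|) < ∞ := by
  classical
  obtain ⟨N, H, q, N0, H0, hN, hH, hq⟩ := Pool.Agent.H.MP_1dbcb3_an.seq
  have Np : ∀ n, 0 < N n := fun n => by
    induction n with
    | zero => omega
    | succ n ih => rw [hN, hq]; positivity
  have q2 : ∀ n, 2 ^ (n + 2) ≤ q n := fun n => by
    rw [hq]
    have := Np n
    exact (Nat.le_mul_of_pos_right _ (by positivity)).trans (Nat.le_self_pow (by omega) _)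
  have qp : ∀ n, 0 < q n := fun n => lt_of_lt_of_le (by positivity) (q2 n)
  let s : ℕ → ℝ := fun n => ((H n : ℝ) + 1) * N (n + 1)
  have hs : ∀ n, (H (n + 1) : ℝ) = H n + 2 * s n := fun n => by rw [hH]; push_cast; rfl
  have N1 : ∀ n, (1 : ℝ) ≤ N n := fun n => by exact_mod_cast Np n
  have Hp : ∀ n, (0 : ℝ) ≤ H n := fun n => Nat.cast_nonneg _
  have s1 : ∀ n, 1 ≤ s n := fun n => by simp only [s]; nlinarith [N1 (n + 1), Hp n]
  have s2 : ∀ n, 2 * s n ≤ s (n + 1) := fun n => by
    have := hs n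
    simp only [s] at this ⊢
    nlinarith [N1 (n + 1 + 1), Hp n, Hp (n + 1)]
  have Hm : StrictMono H := strictMono_nat_of_lt_succ fun n => by
    have : (H n : ℝ) < H (n + 1) := by linarith [hs n, s1 n]
    exact_mod_cast this
  obtain ⟨ω, ωc, ω0, ωp, ωi, ωb⟩ := omega_ex s s1 s2
  let B : ℕ → Set ℝ := fun n => {x | (q n : ℤ) ∣ ⌊(N (n + 1) : ℝ) * x⌋}
  have Bm : ∀ n, MeasurableSet (B n) := fun n =>
    (Int.measurable_floor.comp (measurable_const_mul _)) (MeasurableSet.of_discrete
      (s := {k : ℤ | (q n : ℤ) ∣ k}))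
  let ν : Measure ℝ := volume.restrict (Ioo (0 : ℝ) 1)
  have Bν : ∀ n, ν (B n) ≤ ENNReal.ofReal (1 / q n) := fun n => by
    rw [Measure.restrict_apply (Bm n)]
    simp only [B, hN]
    exact meas_le (Np n) (qp n)
  have Bs : ∑' n, ν (B n) ≤ ENNReal.ofReal (1 / 2) := by
    rw [← tsum_geometric_two' (1 / 2), ENNReal.ofReal_tsum_of_nonneg (fun n => by positivity)
      (summable_geometric_two' _)]
    refine ENNReal.tsum_le_tsum fun n => (Bν n).trans (ENNReal.ofReal_le_ofReal ?_)
    have : (2 : ℝ) ^ (n + 2) ≤ q n := by exact_mod_cast q2 n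
    rw [div_div, div_div]
    exact one_div_le_one_div_of_le (by positivity) (le_of_eq_of_le (by ring) this)
  let u : ℝ → ℝ := fun x => (⨆ n, (B n).indicator (fun _ => (H (n + 1) : ℝ≥0∞)) x).toReal
  have um : Measurable u := (Measurable.iSup fun n => measurable_const.indicator (Bm n)).ennreal_toReal
  have good : ∀ᵐ x ∂ν, ∃ l, (∀ n, l ≤ n → x ∉ B n) ∧ (∀ k, l = k + 1 → x ∈ B k) ∧ u x = H l := by
    filter_upwards [ae_finite_setOfPred_mem (Bs.trans_lt ENNReal.ofReal_lt_top).ne] with x hx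
    have ex : ∃ l, ∀ n, l ≤ n → x ∉ B n := by
      obtain ⟨l, hl⟩ := hx.bddAbove
      exact ⟨l + 1, fun n hn h => by have := hl h; omega⟩
    have h1 := Nat.find_spec ex
    have h2 : ∀ k, Nat.find ex = k + 1 → x ∈ B k := fun k hk => by
      by_contra g
      refine Nat.find_min ex (m := k) (by omega) fun n hn => ?_
      rcases hn.eq_or_lt with e | e
      · exact e ▸ g
      · exact h1 n (by omega)
    refine ⟨_, h1, h2, ?_⟩
    have : ⨆ n, (B n).indicator (fun _ => (H (n + 1) : ℝ≥0∞)) x = H (Nat.find ex) := by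
      refine le_antisymm (iSup_le fun n => ?_) ?_
      · by_cases g : x ∈ B n
        · rw [indicator_of_mem g]
          have : n + 1 ≤ Nat.find ex := by
            by_contra g'
            exact h1 n (by omega) g
          exact_mod_cast Hm.monotone this
        · simp [g]
      · rcases Nat.eq_zero_or_eq_succ_pred (Nat.find ex) with e | e
        · simp [e, H0]
        · refine le_iSup_of_le (Nat.find ex).pred ?_
          rw [indicator_of_mem (h2 _ e), ← Nat.succ_eq_add_one, ← e]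
    simp only [u, this, ENNReal.toReal_natCast]
  have cell : ∀ (x y : ℝ) m, ⌊(N m : ℝ) * x⌋ = ⌊(N m : ℝ) * y⌋ → ∀ k, k < m → (x ∈ B k ↔ y ∈ B k) := by
    intro x y m
    induction m with
    | zero => intro _ k hk; omega
    | succ m ih =>
      intro h k hk
      rcases (Nat.lt_succ_iff.1 hk).eq_or_lt with e | e
      · simp only [B, e, mem_ofPred_eq, h]
      · exact ih (by rw [fl_step (qp m), fl_step (qp m) y, ← hN, h]) k e
  refine ⟨ω, ωc, ω0, ωp, ωi, u, um, ?_, fun α α0 α1 => ?_, ?_⟩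
  · rintro ⟨c, hc⟩
    have h1 : ν (⋃ n, B n)ᶜ ≠ 0 := fun h => by
      have := (measure_univ_le_add_compl (μ := ν) (⋃ n, B n)).trans
        (add_le_add ((measure_iUnion_le _).trans Bs) h.le)
      simp [ν] at this
    have h2 : ν (B 0) ≠ 0 := by
      have r : (0 : ℝ) < N 1 := by linarith [N1 1]
      refine fun h => (?_ : ν (Ioo 0 (1 / N 1)) ≠ 0) (measure_mono_null (fun x hx => ?_) h)
      · rw [Measure.restrict_apply measurableSet_Ioo, inter_eq_left.2 (Ioo_subset_Ioo_right
          ((div_le_one r).2 (N1 1)))]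
        simpa using (Np 1).ne'
      · have : ⌊(N (0 + 1) : ℝ) * x⌋ = 0 := by
          rw [Int.floor_eq_zero_iff]
          exact ⟨by have := hx.1; positivity, by have := (lt_div_iff₀ r).1 hx.2; linarith⟩
        simp only [B, mem_ofPred_eq, this, dvd_zero]
    obtain ⟨x, hx, ⟨l, a1, a2, a3⟩, a4⟩ :=
      Measure.exists_mem_of_measure_ne_zero_of_ae h1 (ae_restrict_of_ae (good.and hc))
    obtain ⟨y, hy, ⟨l', b1, b2, b3⟩, b4⟩ :=
      Measure.exists_mem_of_measure_ne_zero_of_ae h2 (ae_restrict_of_ae (good.and hc))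
    have e : H l = H l' := by exact_mod_cast a3.symm.trans (a4.trans (b4.symm.trans b3))
    rcases Nat.eq_zero_or_eq_succ_pred l with g | g
    · exact b1 0 (by rw [← Hm.injective e, g]) hy
    · exact hx (mem_iUnion.2 ⟨_, a2 _ g⟩)
  · have h1 : ∀ᵐ x ∂ν, ENNReal.ofReal (|u x| ^ α) ≤
        ∑' n, (B n).indicator (fun _ => ENNReal.ofReal ((H (n + 1) : ℝ) ^ α)) x := by
      filter_upwards [good] with x ⟨l, a1, a2, a3⟩
      rcases Nat.eq_zero_or_eq_succ_pred l with g | g
      · simp [a3, g, H0, α0.ne']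
      · refine le_trans ?_ (ENNReal.le_tsum l.pred)
        rw [indicator_of_mem (a2 _ g), ← Nat.succ_eq_add_one, ← g, a3, abs_of_nonneg (Hp l)]
    have sm : Summable fun n => (H (n + 1) : ℝ) ^ α * (1 / q n) := by
      obtain ⟨n0, hn0⟩ := exists_nat_ge (1 / (1 - α))
      refine Summable.of_norm_bounded_eventually_nat summable_geometric_two
        (eventually_atTop.2 ⟨n0, fun n hn => ?_⟩)
      have Q0 : (0 : ℝ) < q n := by exact_mod_cast qp n
      set K : ℝ := 3 * (H n + 1) * N n with hK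
      have K1 : 1 ≤ K := by nlinarith [N1 n, Hp n]
      have e1 : (H (n + 1) : ℝ) ≤ K * q n := by
        have e := N1 (n + 1)
        have e' := hs n
        simp only [s] at e'
        rw [hN] at e e'
        push_cast at e e'
        nlinarith [Hp n]
      have e2 : 2 ^ (n + 2) * K ≤ (q n : ℝ) ^ (1 - α) := by
        have b1 : 1 ≤ 2 ^ (n + 2) * K := one_le_mul_of_one_le_of_one_le (one_le_pow₀ one_le_two) K1
        have : (q n : ℝ) = (2 ^ (n + 2) * K) ^ (n + 1) := by rw [hq]; push_cast; rfl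
        rw [this, ← Real.rpow_natCast _ (n + 1), ← Real.rpow_mul (by positivity)]
        refine Real.self_le_rpow_of_one_le b1 ?_
        have n1 : (n0 : ℝ) ≤ n := by exact_mod_cast hn
        rw [div_le_iff₀ (by linarith)] at hn0
        push_cast
        nlinarith
      have e3 : (H (n + 1) : ℝ) ^ α ≤ K * (q n : ℝ) ^ α := by
        refine (Real.rpow_le_rpow (Hp _) e1 α0.le).trans ?_
        rw [Real.mul_rpow (by positivity) Q0.le]
        gcongr
        exact Real.rpow_le_self_of_one_le K1 α1.le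
      have e4 : (q n : ℝ) ^ α * (q n : ℝ) ^ (1 - α) = q n := by
        rw [← Real.rpow_add Q0]; simp
      have e5 : 0 < (q n : ℝ) ^ α := by positivity
      rw [Real.norm_of_nonneg (by positivity), mul_one_div, one_div_pow,
        div_le_div_iff₀ Q0 (by positivity), one_mul]
      calc (H (n + 1) : ℝ) ^ α * 2 ^ n ≤ K * (q n : ℝ) ^ α * 2 ^ (n + 2) := by
            gcongr
            · exact one_le_two
            · omega
        _ = (q n : ℝ) ^ α * (2 ^ (n + 2) * K) := by ring
        _ ≤ (q n : ℝ) ^ α * (q n : ℝ) ^ (1 - α) := by gcongr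
        _ = q n := e4
    refine (lintegral_mono_ae h1).trans_lt ?_
    rw [lintegral_tsum fun n => (measurable_const.indicator (Bm n)).aemeasurable]
    refine lt_of_le_of_lt (ENNReal.tsum_le_tsum fun n => ?_)
      ((ENNReal.ofReal_tsum_of_nonneg (fun n => by positivity) sm).symm.trans_lt
        ENNReal.ofReal_lt_top)
    rw [lintegral_indicator_const (Bm n), ENNReal.ofReal_mul (by positivity)]
    gcongr
    exact Bν n
  · have key : ∀ x y : ℝ, ∀ l l', l < l' → |y - x| < 1 → (∀ n, l ≤ n → x ∉ B n) →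
        (∀ n, l' ≤ n → y ∉ B n) → (∀ k, l' = k + 1 → y ∈ B k) →
        ω (((H l' : ℝ) - H l) / |y - x|) / |y - x| ≤ 1 := by
      intro x y l l' hl hd a1 b1 b2
      obtain ⟨k, rfl⟩ : ∃ k, l' = k + 1 := ⟨l' - 1, by omega⟩
      have hy := b2 k rfl
      have hx := a1 k (by omega)
      have d0 : 0 < |y - x| := abs_pos.2 (sub_ne_zero.2 fun e => hx (e ▸ hy))
      have c1 : (H l : ℝ) ≤ H k := by exact_mod_cast Hm.monotone (by omega : l ≤ k)
      have c2 : 2 * s k ≤ (H (k + 1) : ℝ) - H l := by linarith [hs k]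
      have c3 : 1 ≤ (H (k + 1) : ℝ) - H l := by linarith [s1 k]
      have := ωb (((H (k + 1) : ℝ) - H l) / |y - x|) (by positivity) fun n => by
        rcases le_or_gt n k with e | e
        · right
          have : s n ≤ s k := (monotone_nat_of_le_succ fun n => by linarith [s1 n, s2 n]) e
          rw [le_div_iff₀ d0]
          nlinarith [s1 n]
        · left
          have f1 : ⌊(N n : ℝ) * x⌋ ≠ ⌊(N n : ℝ) * y⌋ := fun g => hx ((cell x y n g k e).2 hy)
          have f2 : 1 ≤ (N (n + 1) : ℝ) * |y - x| := by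
            rcases lt_or_gt_of_ne (sub_ne_zero.1 (abs_pos.1 d0)) with g | g
            · rw [abs_sub_comm, abs_of_pos (sub_pos.2 g), hN]
              exact Pool.Agent.H.MP_1dbcb3_an.sep (qp n) g f1.symm (hN n ▸ a1 n (by omega))
            · rw [abs_of_pos (sub_pos.2 g), hN]
              exact Pool.Agent.H.MP_1dbcb3_an.sep (qp n) g f1 (hN n ▸ b1 n (by omega))
          have f3 : (H (k + 1) : ℝ) ≤ H n := by exact_mod_cast Hm.monotone e
          rw [div_le_iff₀ d0]
          simp only [s]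
          nlinarith [Hp l, Hp n]
      rw [one_div_div] at this
      rw [div_le_one d0]
      exact this.trans (div_le_self d0.le c3)
    rw [Measure.volume_eq_prod, ← Measure.prod_restrict]
    have g1 := (Measure.quasiMeasurePreserving_fst (μ := ν) (ν := ν)).ae
      (good.and (ae_restrict_mem measurableSet_Ioo))
    have g2 := (Measure.quasiMeasurePreserving_snd (μ := ν) (ν := ν)).ae
      (good.and (ae_restrict_mem measurableSet_Ioo))
    refine (lintegral_mono_ae (g := fun _ => 1) ?_).trans_lt (by simp)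
    filter_upwards [g1, g2] with p ⟨⟨l, a1, a2, a3⟩, a4⟩ ⟨⟨l', b1, b2, b3⟩, b4⟩
    rw [a3, b3, ENNReal.ofReal_le_one]
    have hd : |p.2 - p.1| < 1 := abs_lt.2 ⟨by linarith [a4.2, b4.1], by linarith [a4.1, b4.2]⟩
    rcases lt_trichotomy l l' with e | e | e
    · rw [abs_of_nonneg (sub_nonneg.2 (by exact_mod_cast Hm.monotone e.le))]
      exact key _ _ _ _ e hd a1 b1 b2
    · simp [e, ω0]
    · rw [abs_sub_comm, abs_of_nonneg (sub_nonneg.2 (by exact_mod_cast Hm.monotone e.le)),
        abs_sub_comm]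
      exact key _ _ _ _ e (by rwa [abs_sub_comm]) b1 a1 a2

end Pool.Agent.Results.MP_1dbcb3_an.No
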